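import Pool.Agent.N848.OL.Stm

/-!
OL/MUU: the property `NoMu` goes up in Galois extensions of `p`-power degree.
-/

set_option autoImplicit false

namespace Pool.Agent.N136.OL

open NumberField IsDedekindDomain Module Pool.Agent.N848.OL

section

variable {k K : Type} [Field k] [NumberField k] [Field K] [NumberField K] [Algebra k K]

/-- the prime below -/
theorem exists_below (w : HeightOneSpectrum (𝓞 K)) : ∃ v : HeightOneSpectrum (𝓞 k),
    v.asIdeal = w.asIdeal.comap (algebraMap (𝓞 k) (𝓞 K)) := by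
  have hp : (w.asIdeal.comap (algebraMap (𝓞 k) (𝓞 K))).IsPrime := by
    have := w.isPrime
    exact Ideal.comap_isPrime _ _
  have hne : w.asIdeal.comap (algebraMap (𝓞 k) (𝓞 K)) ≠ ⊥ := by
    have := w.isPrime
    intro h
    exact w.ne_bot (Ideal.eq_bot_of_comap_eq_bot h)
  exact ⟨⟨_, hp, hne⟩, rfl⟩

theorem ram_dvd (hG : IsGalois k K) (v : HeightOneSpectrum (𝓞 k)) (w : HeightOneSpectrum (𝓞 K))
    [w.asIdeal.LiesOver v.asIdeal] :
    v.asIdeal.ramificationIdx' w.asIdeal ∣ finrank k K := by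
  have hw := w.isPrime
  have hv := v.isPrime
  have h1 := Ideal.ramificationIdx'_eq_ramificationIdx v.asIdeal w.asIdeal v.ne_bot
  have h2 := Ideal.ramificationIdxIn_eq_ramificationIdx v.asIdeal w.asIdeal (K ≃ₐ[k] K)
  have h3 := Ideal.ncard_primesOver_mul_ramificationIdxIn_mul_inertiaDegIn v.asIdeal (𝓞 K)
    (K ≃ₐ[k] K)
  rw [IsGalois.card_aut_eq_finrank] at h3
  rw [h1, ← h2, ← h3]
  exact (dvd_mul_right _ _).trans (dvd_mul_left _ _)

end

open WithZero in
theorem t_MUU : S_MUU := by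
  intro p hp r k K _ _ _ _ _ hG hd hk w hpw y hy
  obtain ⟨v, hv⟩ := exists_below (k := k) w
  have hlo : w.asIdeal.LiesOver v.asIdeal := by
    rw [Ideal.liesOver_iff]
    exact hv
  have hpv : (p : 𝓞 k) ∈ v.asIdeal := by
    rw [hv, Ideal.mem_comap, map_natCast]
    exact hpw
  obtain ⟨e, he⟩ : ∃ e : ℕ, e = v.asIdeal.ramificationIdx' w.asIdeal := ⟨_, rfl⟩
  have hed : e ∣ p ^ r := by
    rw [← hd, he]
    exact ram_dvd hG v w
  have hval : v.valuation k (p : k) ^ e = w.valuation K (p : K) := by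
    have h1 := HeightOneSpectrum.valuation_liesOver K v w (p : k)
    have h2 : algebraMap k K (p : k) = (p : K) := map_natCast (algebraMap k K) p
    rw [h2, ← he] at h1
    exact h1
  have hp0 : (p : k) ≠ 0 := Nat.cast_ne_zero.2 hp.out.ne_zero
  have hvp0 : v.valuation k (p : k) ≠ 0 := (Valuation.ne_zero_iff _).2 hp0
  rw [← hval] at hy
  have hlog := congrArg WithZero.log hy
  rw [WithZero.log_pow, WithZero.log_pow, nsmul_eq_mul, nsmul_eq_mul] at hlog
  have hcop : IsCoprime ((p - 1 : ℕ) : ℤ) (e : ℤ) := by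
    rw [Nat.isCoprime_iff_coprime]
    have h1 : Nat.Coprime (p - 1) p := by
      have h2 := Nat.coprime_self_sub_left (m := 1) (n := p) hp.out.one_lt.le
      rw [h2]
      exact Nat.coprime_one_left p
    exact Nat.Coprime.coprime_dvd_right hed (h1.pow_right r)
  have hdvd : ((p - 1 : ℕ) : ℤ) ∣ WithZero.log (v.valuation k (p : k)) := by
    refine hcop.dvd_of_dvd_mul_left ?_
    exact ⟨_, hlog.symm⟩
  obtain ⟨c, hc⟩ := hdvd
  obtain ⟨π, hπ⟩ := v.valuation_exists_uniformizer k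
  have hπ0 : v.valuation k π ≠ 0 := by
    rw [hπ]
    exact WithZero.exp_ne_zero
  refine hk v hpv (π ^ (-c)) ?_
  have h5 : v.valuation k (π ^ (-c)) ^ (p - 1) ≠ 0 := by
    rw [map_zpow₀]
    exact pow_ne_zero _ (zpow_ne_zero _ hπ0)
  rw [← WithZero.exp_log h5, ← WithZero.exp_log hvp0, hc, WithZero.log_pow, map_zpow₀,
    WithZero.log_zpow, hπ, WithZero.log_exp, nsmul_eq_mul, smul_eq_mul]
  congr 2
  ring

end Pool.Agent.N136.OL
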